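import Pool.Agent.Lib.P07dee5.FinalA
import Pool.Agent.Lib.P07dee5.Access

/-!
# Keldysh measures of finely open sets are supported by rectifiably accessible points

Let `U` be a finely open subset of `ℝⁿ`, `n ≥ 2`, and let `a ∈ U`. Brownian motion started at `a`
leaves `U` almost surely at a point which is the end point of a path of finite length running
through `U`. In other words the Keldysh measure of `U` at `a` is supported by the set of points
rectifiably accessible from `U`.

Idea of the proof. Almost surely the exit time of `U` is the exit time of a union `V ⊆ U` of an
increasing sequence of closed sets `F_k` such that Brownian motion started in `F_k` spends a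
positive time in `F_(k+1)`. For `n ≥ 3` one runs, inside a ball of radius `R` around the starting
point, a walk on spheres (centred at the current position): the radii are chosen such that the
segment from the centre to the exit point from the sphere lies in `V`, except with probability at
most `δ` times the probability that the exit from `V` happens inside the sphere. The radii are
comparable to the distance to the boundary of the ball or to the largest radius for which the
exit probability is at most `ε`. With `ε` a fixed power of `δ` this is possible since a set of
small capacity has a small projection to most spheres. The lengths of the steps are estimated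
with a tail bound for Whitney type steps and with the number of steps limited by `ε`. One
iterates in the sphere in which the exit happens, with `R` replaced by a radius at most `R / 16`,
and the errors and the lengths are summable. The plane case follows from `n = 3` by a cylinder.
-/

open MeasureTheory Set Filter Topology ProbabilityTheory Module
open scoped ENNReal NNReal

namespace Pool.Agent.Results.MP_07dee5_an.KeldyshAccessible

open Pool.Agent.Lib.P07dee5

/-- **The Keldysh measure of a finely open set is supported by the points which are rectifiably
accessible from the set.** -/
theorem result {n : ℕ} (hn : 2 ≤ n) {U : Set (EuclideanSpace ℝ (Fin n))}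
    (hU : @IsOpen _ (fineTopology (EuclideanSpace ℝ (Fin n))) U)
    {a : EuclideanSpace ℝ (Fin n)} (ha : a ∈ U) {Ω : Type*} [MeasurableSpace Ω] (P : Measure Ω)
    (X : ℝ≥0 → Ω → EuclideanSpace ℝ (Fin n)) (hX : IsBM P X a) :
    AEMeasurable (exitTime X U) P ∧ AEMeasurable (exitPos X U) P ∧
      (∀ᵐ ω ∂P, exitTime X U ω < ∞ → exitPos X U ω ∈ accessible U) ∧
      keldysh P X U (Uᶜ \ accessible U) = 0 :=
  final_of_access (fun m hm W hW D hN => access (by simpa using hm) hW hN) hn hU ha P X hX

end Pool.Agent.Results.MP_07dee5_an.KeldyshAccessible
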